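import Pool.Agent.Helper57.NS.Defs
import Pool.Agent.Helper56.UG.Cv

/-!
# OR: UB, all windows in almost every stretch, the upper bound
-/

set_option autoImplicit false
open MeasureTheory Set Filter Topology
open Pool.Agent.Helper93.UG (zc sp)
open Pool.Agent.Helper57.NS (cnt)

namespace Pool.Agent.Helper49.OR

/-- `Helper24.TX.master` -/
def StMaster : Prop := ∃ C κ M₀ T₀ : ℝ, 0 < C ∧ 0 < κ ∧ 1 ≤ M₀ ∧ ∀ T c M : ℝ, T₀ ≤ T → 1 ≤ c →
    c * Real.log (Real.log T) ≤ Real.log T → M₀ ≤ M → M ≤ Real.log T →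
    ∀ (V : ℝ) (k : ℕ), 0 < V → (k : ℝ) ≤ M / 8 →
    volume {t : ℝ | T / 2 ≤ t ∧ t ≤ 3 * T ∧ V + C * M ≤ |(zc (Ico t (t + c * sp T)) : ℝ) - c|} ≤
      ENNReal.ofReal ((C * Real.exp (-(κ * M)) +
        C * (k.factorial * (2 / Real.pi ^ 2 * (Real.log c + C) / V ^ 2) ^ k)) * T)

/-- one tail, for a length up to `2 L` -/
theorem ub_one (h : StMaster) {δ : ℝ} (hδ : 0 < δ) (hδ1 : δ ≤ 1) : ∃ C T₀ : ℝ, 1 ≤ C ∧ ∀ T L : ℝ, T₀ ≤ T → C ≤ L →
    L ≤ Real.log T ^ (1 - δ) → ∀ c : ℝ, 1 ≤ c → c ≤ 2 * L →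
    volume {t : ℝ | T / 2 ≤ t ∧ t ≤ 3 * T ∧ C * Real.log L ≤ |(zc (Ico t (t + c * sp T)) : ℝ) - c|} ≤
      ENNReal.ofReal (C * L ^ (-3 : ℝ) * T) := by
  obtain ⟨C, κ, M₀, T₀, hC, hκ, hM₀, H⟩ := h
  obtain ⟨A, hA⟩ : ∃ A : ℝ, A = 3 / κ := ⟨_, rfl⟩
  have hA0 : 0 < A := by rw [hA]; positivity
  have hAκ : κ * A = 3 := by rw [hA]; field_simp
  obtain ⟨B, hB⟩ : ∃ B : ℝ, B = Real.sqrt (A * Real.exp (48 / A)) := ⟨_, rfl⟩
  have hB0 : 0 < B := by rw [hB]; positivity
  have hB2 : B ^ 2 = A * Real.exp (48 / A) := by rw [hB, Real.sq_sqrt (by positivity)]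
  -- eventually in `L`
  have evL : ∀ᶠ L : ℝ in atTop, M₀ ≤ A * Real.log L ∧ 16 ≤ A * Real.log L ∧ Real.log 2 + C ≤ Real.log L ∧ 1 ≤ L := by
    have h1 : Tendsto (fun L : ℝ => A * Real.log L) atTop atTop := Real.tendsto_log_atTop.const_mul_atTop hA0
    exact ((h1.eventually_ge_atTop _).and ((h1.eventually_ge_atTop _).and
      ((Real.tendsto_log_atTop.eventually_ge_atTop _).and (eventually_ge_atTop 1))))
  obtain ⟨L0, hL0⟩ := eventually_atTop.1 evL
  -- eventually in `y = log T`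
  have evT : ∀ᶠ y : ℝ in atTop, 2 * Real.log y ≤ y ^ δ ∧ A * Real.log y ≤ y ∧ 1 ≤ y := by
    have h1 : ∀ᶠ y : ℝ in atTop, Real.log y ≤ 1 / 2 * y ^ δ := by
      have := (isLittleO_log_rpow_atTop hδ).bound (show (0:ℝ) < 1 / 2 by norm_num)
      filter_upwards [this, eventually_ge_atTop 1] with y hy hy1
      rw [Real.norm_eq_abs, Real.norm_eq_abs, abs_of_nonneg (Real.log_nonneg hy1), abs_of_nonneg (by positivity)] at hy
      exact hy
    have h2 : ∀ᶠ y : ℝ in atTop, A * Real.log y ≤ y := by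
      have := (Real.isLittleO_log_id_atTop).bound (show (0:ℝ) < 1 / A by positivity)
      filter_upwards [this, eventually_ge_atTop 1] with y hy hy1
      rw [Real.norm_eq_abs, Real.norm_eq_abs, abs_of_nonneg (Real.log_nonneg hy1), id, abs_of_nonneg (by linarith)] at hy
      calc A * Real.log y ≤ A * (1 / A * y) := mul_le_mul_of_nonneg_left hy hA0.le
        _ = y := by field_simp
    filter_upwards [h1, h2, eventually_ge_atTop 1] with y hy hy2 hy1
    exact ⟨by linarith, hy2, hy1⟩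
  obtain ⟨T1, hT1⟩ := eventually_atTop.1 (Real.tendsto_log_atTop.eventually evT)
  refine ⟨max (max (B + C * A) L0) (max 1 (2 * C)), max (max T₀ 1) T1, le_max_of_le_right (le_max_left _ _),
    fun T L hT hL hLT c hc1 hc2 => ?_⟩
  have hT0 : T₀ ≤ T := (le_max_left _ _).trans ((le_max_left _ _).trans hT)
  have hT1' : 1 ≤ T := (le_max_right _ _).trans ((le_max_left _ _).trans hT)
  obtain ⟨g1, g2, g3⟩ := hT1 T ((le_max_right _ _).trans hT)
  obtain ⟨f1, f2, f3, f4⟩ := hL0 L ((le_max_right _ _).trans ((le_max_left _ _).trans hL))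
  have hL0' : 0 < L := by linarith
  set y := Real.log T with hy
  have hy0 : 0 < y := by linarith
  have hLy : L ≤ y := by
    calc L ≤ y ^ (1 - δ) := hLT
      _ ≤ y ^ (1 : ℝ) := Real.rpow_le_rpow_of_exponent_le g3 (by linarith)
      _ = y := Real.rpow_one y
  have hlogL : Real.log L ≤ Real.log y := Real.log_le_log hL0' hLy
  have hlogL0 : 0 ≤ Real.log L := Real.log_nonneg f4
  -- the range of `c`
  have hr1 : c * Real.log y ≤ y := by
    have h1 : 0 ≤ Real.log y := Real.log_nonneg g3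
    calc c * Real.log y ≤ (2 * L) * Real.log y := mul_le_mul_of_nonneg_right hc2 h1
      _ = L * (2 * Real.log y) := by ring
      _ ≤ y ^ (1 - δ) * y ^ δ := mul_le_mul hLT g1 (by positivity) (by positivity)
      _ = y := by rw [← Real.rpow_add hy0]; norm_num
  have hr2 : A * Real.log L ≤ y := (mul_le_mul_of_nonneg_left hlogL hA0.le).trans g2
  -- the parameters
  obtain ⟨k, hk⟩ : ∃ k : ℕ, k = ⌊A * Real.log L / 8⌋₊ := ⟨_, rfl⟩
  have hk1 : (k : ℝ) ≤ A * Real.log L / 8 := by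
    rw [hk]
    exact Nat.floor_le (by positivity)
  have hk2 : A * Real.log L / 16 ≤ k := by
    have h1 : A * Real.log L / 8 < k + 1 := by
      rw [hk]
      exact Nat.lt_floor_add_one _
    linarith
  have hlogL1 : 0 < Real.log L := by
    by_contra hh
    have : A * Real.log L ≤ 0 := mul_nonpos_of_nonneg_of_nonpos hA0.le (not_lt.1 hh)
    linarith
  have hV : 0 < B * Real.log L := by positivity
  have hmain := H T c (A * Real.log L) hT0 hc1 hr1 f1 hr2 (B * Real.log L) k hV hk1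
  -- the set
  have hsub : {t : ℝ | T / 2 ≤ t ∧ t ≤ 3 * T ∧ max (max (B + C * A) L0) (max 1 (2 * C)) * Real.log L ≤
      |(zc (Ico t (t + c * sp T)) : ℝ) - c|} ⊆
      {t : ℝ | T / 2 ≤ t ∧ t ≤ 3 * T ∧ B * Real.log L + C * (A * Real.log L) ≤ |(zc (Ico t (t + c * sp T)) : ℝ) - c|} := by
    rintro t ⟨h1, h2, h3⟩
    refine ⟨h1, h2, le_trans ?_ h3⟩
    calc B * Real.log L + C * (A * Real.log L) = (B + C * A) * Real.log L := by ring
      _ ≤ _ := mul_le_mul_of_nonneg_right ((le_max_left _ _).trans (le_max_left _ _)) hlogL0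
  refine (measure_mono hsub).trans (hmain.trans (ENNReal.ofReal_le_ofReal ?_))
  refine mul_le_mul_of_nonneg_right ?_ (by linarith)
  have hL3 : L ^ (-3 : ℝ) = Real.exp (-(3 * Real.log L)) := by
    rw [Real.rpow_def_of_pos hL0']
    ring_nf
  -- first term
  have e1 : Real.exp (-(κ * (A * Real.log L))) = L ^ (-3 : ℝ) := by
    rw [hL3, ← mul_assoc, hAκ]
  -- second term
  have e2 : (k.factorial : ℝ) * (2 / Real.pi ^ 2 * (Real.log c + C) / (B * Real.log L) ^ 2) ^ k ≤ L ^ (-3 : ℝ) := by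
    have hlc0 : 0 ≤ Real.log c := Real.log_nonneg hc1
    have hlc : Real.log c + C ≤ 2 * Real.log L := by
      have h1 : Real.log c ≤ Real.log (2 * L) := Real.log_le_log (by linarith) hc2
      rw [Real.log_mul (by norm_num) hL0'.ne'] at h1
      linarith
    have hfac : (k.factorial : ℝ) ≤ (k : ℝ) ^ k := by exact_mod_cast Nat.factorial_le_pow k
    have hpi : 2 / Real.pi ^ 2 ≤ 1 := by
      rw [div_le_one (by positivity)]
      have := Real.pi_gt_three
      nlinarith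
    calc (k.factorial : ℝ) * (2 / Real.pi ^ 2 * (Real.log c + C) / (B * Real.log L) ^ 2) ^ k
        ≤ (k : ℝ) ^ k * (2 / Real.pi ^ 2 * (Real.log c + C) / (B * Real.log L) ^ 2) ^ k :=
          mul_le_mul_of_nonneg_right hfac (by positivity)
      _ = ((k : ℝ) * (2 / Real.pi ^ 2 * (Real.log c + C) / (B * Real.log L) ^ 2)) ^ k := (mul_pow _ _ _).symm
      _ ≤ (Real.exp (-(48 / A))) ^ k := by
          refine pow_le_pow_left₀ (by positivity) ?_ k
          calc (k : ℝ) * (2 / Real.pi ^ 2 * (Real.log c + C) / (B * Real.log L) ^ 2)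
              ≤ (A * Real.log L / 8) * (1 * (2 * Real.log L) / (B * Real.log L) ^ 2) := by gcongr
            _ = A / (4 * B ^ 2) := by field_simp; ring
            _ ≤ A / B ^ 2 := div_le_div_of_nonneg_left hA0.le (by positivity) (by nlinarith [sq_nonneg B])
            _ = Real.exp (-(48 / A)) := by
                rw [hB2, Real.exp_neg]
                field_simp
      _ = Real.exp (-(48 / A * k)) := by rw [← Real.exp_nat_mul]; ring_nf
      _ ≤ L ^ (-3 : ℝ) := by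
          rw [hL3, Real.exp_le_exp, neg_le_neg_iff]
          calc 3 * Real.log L = 48 / A * (A * Real.log L / 16) := by field_simp; norm_num
            _ ≤ 48 / A * k := mul_le_mul_of_nonneg_left hk2 (by positivity)
  rw [e1]
  have hL3p : 0 ≤ L ^ (-3 : ℝ) := by positivity
  calc C * L ^ (-3 : ℝ) + C * ((k.factorial : ℝ) * (2 / Real.pi ^ 2 * (Real.log c + C) / (B * Real.log L) ^ 2) ^ k)
      ≤ C * L ^ (-3 : ℝ) + C * L ^ (-3 : ℝ) := by gcongr
    _ = (2 * C) * L ^ (-3 : ℝ) := by ring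
    _ ≤ _ := mul_le_mul_of_nonneg_right ((le_max_right _ _).trans (le_max_right _ _)) hL3p

/-- **UB** -/
theorem ub_of (h : StMaster) {δ : ℝ} (hδ : 0 < δ) (hδ1 : δ ≤ 1) : ∃ C T₀ : ℝ, 1 ≤ C ∧ ∀ T L : ℝ, T₀ ≤ T → C ≤ L →
    L ≤ Real.log T ^ (1 - δ) →
    ∃ E : Set ℝ, volume E ≤ ENNReal.ofReal (C * L ^ (-1 : ℝ) * T) ∧ ∀ t ∈ Icc T (2 * T), t ∉ E → ∀ x ∈ Icc 0 L,
      |cnt T t (Icc 0 x) - x| ≤ C * Real.log L := by
  obtain ⟨C, T₀, hC, H⟩ := ub_one h hδ hδ1
  refine ⟨max (2 * C + 4) (Real.exp 1), max T₀ 3, le_max_of_le_left (by linarith), fun T L hT hL hLT => ?_⟩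
  have hT0 : T₀ ≤ T := (le_max_left _ _).trans hT
  have hT3 : 3 ≤ T := (le_max_right _ _).trans hT
  have hLC : C ≤ L := by linarith [(le_max_left _ _).trans hL]
  have hL4 : 2 * C + 4 ≤ L := (le_max_left _ _).trans hL
  have hLe : Real.exp 1 ≤ L := (le_max_right _ _).trans hL
  have hL0 : 0 < L := by linarith
  have hlog : 1 ≤ Real.log L := by
    rw [Real.le_log_iff_exp_le hL0]
    exact hLe
  have hlT : 0 < Real.log T := Real.log_pos (by linarith)
  have hs : 0 < sp T := by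
    unfold sp
    positivity
  have hbad := H T L hT0 hLC hLT
  refine ⟨⋃ j ∈ Finset.Icc 1 (⌊L⌋₊ + 1), {t : ℝ | T / 2 ≤ t ∧ t ≤ 3 * T ∧ C * Real.log L ≤
    |(zc (Ico t (t + (j : ℝ) * sp T)) : ℝ) - j|}, ?_, ?_⟩
  · refine (measure_biUnion_finset_le _ _).trans ?_
    have h1 : ∀ j ∈ Finset.Icc 1 (⌊L⌋₊ + 1), volume {t : ℝ | T / 2 ≤ t ∧ t ≤ 3 * T ∧ C * Real.log L ≤
        |(zc (Ico t (t + (j : ℝ) * sp T)) : ℝ) - j|} ≤ ENNReal.ofReal (C * L ^ (-3 : ℝ) * T) := by
      intro j hj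
      rw [Finset.mem_Icc] at hj
      refine hbad j (by exact_mod_cast hj.1) ?_
      have h2 : (j : ℝ) ≤ ⌊L⌋₊ + 1 := by exact_mod_cast hj.2
      have h3 := Nat.floor_le hL0.le
      linarith
    refine (Finset.sum_le_sum h1).trans ?_
    rw [Finset.sum_const, Nat.card_Icc, nsmul_eq_mul, ← ENNReal.ofReal_natCast, ← ENNReal.ofReal_mul (by positivity)]
    refine ENNReal.ofReal_le_ofReal ?_
    have h3 : ((⌊L⌋₊ + 1 + 1 - 1 : ℕ) : ℝ) ≤ 2 * L := by
      rw [Nat.add_sub_cancel]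
      push_cast
      have := Nat.floor_le hL0.le
      linarith
    have hLp : 0 ≤ L ^ (-3 : ℝ) := by positivity
    have hT' : 0 ≤ T := by linarith
    have e1 : L * L ^ (-3 : ℝ) ≤ L ^ (-1 : ℝ) := by
      rw [mul_comm, ← Real.rpow_add_one hL0.ne']
      exact Real.rpow_le_rpow_of_exponent_le (by linarith) (by norm_num)
    calc ((⌊L⌋₊ + 1 + 1 - 1 : ℕ) : ℝ) * (C * L ^ (-3 : ℝ) * T) ≤ (2 * L) * (C * L ^ (-3 : ℝ) * T) :=
          mul_le_mul_of_nonneg_right h3 (by positivity)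
      _ = (2 * C) * (L * L ^ (-3 : ℝ)) * T := by ring
      _ ≤ (2 * C) * L ^ (-1 : ℝ) * T := by gcongr
      _ ≤ max (2 * C + 4) (Real.exp 1) * L ^ (-1 : ℝ) * T := by
          have hLp1 : 0 ≤ L ^ (-1 : ℝ) := by positivity
          refine mul_le_mul_of_nonneg_right (mul_le_mul_of_nonneg_right ?_ hLp1) hT'
          linarith [le_max_left (2 * C + 4) (Real.exp 1)]
  · intro t ht hE x hx
    have hgood : ∀ j : ℕ, 1 ≤ j → j ≤ ⌊L⌋₊ + 1 → |(zc (Ico t (t + (j : ℝ) * sp T)) : ℝ) - j| ≤ C * Real.log L := by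
      intro j hj1 hj2
      by_contra h1
      rw [not_le] at h1
      refine hE ?_
      rw [Set.mem_iUnion₂]
      exact ⟨j, Finset.mem_Icc.2 ⟨hj1, hj2⟩, by linarith [ht.1], by linarith [ht.2], h1.le⟩
    have hset : {u : ℝ | (u - t) / sp T ∈ Icc 0 x} = Icc t (t + x * sp T) := by
      ext u
      show (u - t) / sp T ∈ Icc 0 x ↔ _
      rw [Set.mem_Icc, Set.mem_Icc, le_div_iff₀ hs, div_le_iff₀ hs]
      constructor
      · rintro ⟨h1, h2⟩
        exact ⟨by linarith, by linarith⟩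
      · rintro ⟨h1, h2⟩
        exact ⟨by linarith, by linarith⟩
    have hcnt : cnt T t (Icc 0 x) = (zc (Icc t (t + x * sp T)) : ℝ) := by
      unfold cnt
      rw [hset]
    rw [hcnt]
    obtain ⟨i, hi⟩ : ∃ i : ℕ, i = ⌊x⌋₊ := ⟨_, rfl⟩
    have hi1 : (i : ℝ) ≤ x := by rw [hi]; exact Nat.floor_le hx.1
    have hi2 : x < (i : ℝ) + 1 := by rw [hi]; exact Nat.lt_floor_add_one x
    have hiL : i ≤ ⌊L⌋₊ := by rw [hi]; exact Nat.floor_le_floor hx.2
    -- from above
    have hup : (zc (Icc t (t + x * sp T)) : ℝ) ≤ (zc (Ico t (t + ((i + 1 : ℕ) : ℝ) * sp T)) : ℝ) := by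
      have h1 : zc (Icc t (t + x * sp T)) ≤ zc (Ico t (t + ((i + 1 : ℕ) : ℝ) * sp T)) := by
        refine Pool.Agent.Helper56.UG.zc_mono (a := t) (b := t + ((i + 1 : ℕ) : ℝ) * sp T) ?_ Ico_subset_Icc_self
        intro u hu
        refine ⟨hu.1, lt_of_le_of_lt hu.2 ?_⟩
        have : x * sp T < ((i + 1 : ℕ) : ℝ) * sp T := by
          refine mul_lt_mul_of_pos_right ?_ hs
          push_cast
          exact hi2
        linarith
      exact_mod_cast h1
    have hlo : (zc (Ico t (t + (i : ℝ) * sp T)) : ℝ) ≤ (zc (Icc t (t + x * sp T)) : ℝ) := by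
      have h1 : zc (Ico t (t + (i : ℝ) * sp T)) ≤ zc (Icc t (t + x * sp T)) := by
        refine Pool.Agent.Helper56.UG.zc_mono (a := t) (b := t + x * sp T) ?_ Subset.rfl
        intro u hu
        refine ⟨hu.1, hu.2.le.trans ?_⟩
        have : (i : ℝ) * sp T ≤ x * sp T := mul_le_mul_of_nonneg_right hi1 hs.le
        linarith
      exact_mod_cast h1
    have h2 := hgood (i + 1) (by omega) (by omega)
    rw [abs_le] at h2
    push_cast at h2 hup
    have hlow2 : (i : ℝ) - C * Real.log L ≤ (zc (Ico t (t + (i : ℝ) * sp T)) : ℝ) := by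
      rcases Nat.eq_zero_or_pos i with h0 | h0
      · subst h0
        have h3 : 0 ≤ C * Real.log L := by positivity
        have h4 : (0 : ℝ) ≤ (zc (Ico t (t + ((0 : ℕ) : ℝ) * sp T)) : ℝ) := Nat.cast_nonneg _
        push_cast at h4 ⊢
        linarith
      · have h3 := hgood i h0 (by omega)
        rw [abs_le] at h3
        linarith [h3.1]
    have hbig : C * Real.log L + 1 ≤ max (2 * C + 4) (Real.exp 1) * Real.log L := by
      have h5 : C * Real.log L + 1 ≤ (2 * C + 4) * Real.log L := by nlinarith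
      exact h5.trans (mul_le_mul_of_nonneg_right (le_max_left _ _) (by linarith))
    rw [abs_le]
    constructor
    · linarith [h2.1]
    · linarith [h2.2]

end Pool.Agent.Helper49.OR
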