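import Pool.Agent.Helper49.OR.Ub
import Pool.Agent.Helper24.TX.Asm

/-!
# OR: UB, all windows in almost every stretch, the upper bound
-/

set_option autoImplicit false
open MeasureTheory Set Filter Topology
open Pool.Agent.Helper93.UG (zc sp)
open Pool.Agent.Helper57.NS (cnt)

namespace Pool.Agent.Helper49.OR

/-- **UB** -/
theorem ub_main {δ : ℝ} (hδ : 0 < δ) (hδ1 : δ ≤ 1) : ∃ C T₀ : ℝ, 1 ≤ C ∧ ∀ T L : ℝ, T₀ ≤ T → C ≤ L → L ≤ Real.log T ^ (1 - δ) →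
    ∃ E : Set ℝ, volume E ≤ ENNReal.ofReal (C * L ^ (-1 : ℝ) * T) ∧ ∀ t ∈ Icc T (2 * T), t ∉ E → ∀ x ∈ Icc 0 L,
      |cnt T t (Icc 0 x) - x| ≤ C * Real.log L :=
  ub_of Pool.Agent.Helper24.TX.master hδ hδ1

end Pool.Agent.Helper49.OR
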